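import Pool.Agent.P.MP_13cc81_lc.Arith

/-! The standard model of arithmetic is interpretable, with finitely many parameters, in the
one-variable Lindenbaum algebra with the predicate `S`, for every finite rich signature. -/

namespace Pool.Agent.Results.MP_13cc81_lc.StandardModel

open FirstOrder FirstOrder.Language Pool.Agent.P.MP_13cc81_lc

theorem result (L : FirstOrder.Language.{0, 0}) [Finite L.Symbols] (h : Rich L) :
    ∃ (A D : Set (Lind L)) (ν : Lind L → ℕ), A.Finite ∧ Set.SurjOn ν D Set.univ ∧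
      A.Definable baLang {v : Fin 1 → Lind L | v 0 ∈ D} ∧
      A.Definable baLang {v : Fin 2 → Lind L | v 0 ∈ D ∧ v 1 ∈ D ∧ ν (v 0) = ν (v 1)} ∧
      A.Definable baLang {v : Fin 3 → Lind L |
        v 0 ∈ D ∧ v 1 ∈ D ∧ v 2 ∈ D ∧ ν (v 0) + ν (v 1) = ν (v 2)} ∧
      A.Definable baLang {v : Fin 3 → Lind L |
        v 0 ∈ D ∧ v 1 ∈ D ∧ v 2 ∈ D ∧ ν (v 0) * ν (v 1) = ν (v 2)} := by
  have : Finite (Σ n, L.Functions n) :=
    Finite.of_injective (Sum.inl : _ → L.Symbols) Sum.inl_injective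
  have : Finite (Σ n, L.Relations n) :=
    Finite.of_injective (Sum.inr : _ → L.Symbols) Sum.inr_injective
  obtain ⟨I⟩ := exists_iface h
  obtain ⟨A1, -, h1⟩ := Set.definable_iff_finitely_definable.1 (dfFin (I := I))
  obtain ⟨A2, -, h2⟩ := Set.definable_iff_finitely_definable.1 (dfEqC (I := I))
  obtain ⟨A3, -, h3⟩ := Set.definable_iff_finitely_definable.1 (dfAdd (I := I))
  obtain ⟨A4, -, h4⟩ := Set.definable_iff_finitely_definable.1 (dfMul (I := I))
  refine ⟨A1 ∪ A2 ∪ A3 ∪ A4, {b | FinP I b}, nu I, by simp [Set.finite_union], fun n _ => nu_surj I n,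
    h1.mono ?_, h2.mono ?_, h3.mono ?_, h4.mono ?_⟩ <;> intro a ha <;> simp [ha]

end Pool.Agent.Results.MP_13cc81_lc.StandardModel
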